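import Pool.Agent.W203.BE.Stms

set_option autoImplicit false
set_option linter.all false

/-! Project BE (helper203): the assembly of the maximal estimate. -/

open MeasureTheory Set Complex Filter
open scoped ENNReal

namespace Pool.Agent.W337.BE.Mn

open Pool.Agent.W203.BE

/-- the weight -/
noncomputable def w (δ s : ℝ) : ℝ≥0∞ := ENNReal.ofReal ((1 + |s|) ^ (-1 - δ))

theorem w_meas (δ : ℝ) : Measurable (w δ) := by
  unfold w
  refine ENNReal.measurable_ofReal.comp ?_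
  have : Measurable fun s : ℝ => 1 + |s| := (measurable_const.add measurable_norm)
  exact this.pow_const _

theorem w_int {δ : ℝ} (hδ : 0 < δ) : Integrable (fun s : ℝ => (1 + |s|) ^ (-1 - δ)) := by
  have h := integrable_one_add_norm (E := ℝ) (μ := volume) (r := 1 + δ) (by simp; linarith)
  refine h.congr (Eventually.of_forall fun s => ?_)
  simp only [Real.norm_eq_abs]
  congr 1
  ring

theorem w_fin {δ : ℝ} (hδ : 0 < δ) : ∫⁻ s, w δ s ≠ ⊤ := by
  have h := (w_int hδ).lintegral_lt_top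
  exact h.ne

/-- the logarithmic factor -/
noncomputable def Lg (s : ℝ) : ℝ := 1 + Real.log (1 + |s|)

theorem Lg_ge (s : ℝ) : 1 ≤ Lg s := by
  unfold Lg
  have := Real.log_nonneg (by linarith [abs_nonneg s] : (1 : ℝ) ≤ 1 + |s|)
  linarith

theorem Lg_meas : Measurable Lg := by
  unfold Lg
  exact measurable_const.add (Real.measurable_log.comp (measurable_const.add measurable_norm))

theorem log_bound (m : ℕ) {δ : ℝ} (hδ : 0 < δ) : ∃ C : ℝ, 0 < C ∧ ∀ s : ℝ,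
    (1 + |s|) ^ (-1 - δ) * Lg s ^ m ≤ C * (1 + |s|) ^ (-1 - δ / 2) := by
  set ε : ℝ := δ / (2 * (m + 1)) with hε
  have hε0 : 0 < ε := by positivity
  refine ⟨(1 + 1 / ε) ^ m, by positivity, fun s => ?_⟩
  have hy : (1 : ℝ) ≤ 1 + |s| := by linarith [abs_nonneg s]
  have hy0 : (0 : ℝ) < 1 + |s| := by linarith
  have h1 : Lg s ≤ (1 + 1 / ε) * (1 + |s|) ^ ε := by
    unfold Lg
    have h2 := Real.log_le_rpow_div hy0.le hε0
    have h3 : 1 ≤ (1 + |s|) ^ ε := Real.one_le_rpow hy hε0.le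
    calc 1 + Real.log (1 + |s|) ≤ (1 + |s|) ^ ε + (1 + |s|) ^ ε / ε := add_le_add h3 h2
      _ = _ := by ring
  have h4 : Lg s ^ m ≤ (1 + 1 / ε) ^ m * (1 + |s|) ^ (δ / 2) := by
    calc Lg s ^ m ≤ ((1 + 1 / ε) * (1 + |s|) ^ ε) ^ m :=
          pow_le_pow_left₀ (zero_le_one.trans (Lg_ge s)) h1 m
      _ = (1 + 1 / ε) ^ m * (1 + |s|) ^ (ε * m) := by
          rw [mul_pow, ← Real.rpow_natCast ((1 + |s|) ^ ε), ← Real.rpow_mul hy0.le]
      _ ≤ (1 + 1 / ε) ^ m * (1 + |s|) ^ (δ / 2) := by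
          refine mul_le_mul_of_nonneg_left (Real.rpow_le_rpow_of_exponent_le hy ?_) (by positivity)
          rw [hε, div_mul_eq_mul_div, div_le_div_iff₀ (by positivity) (by norm_num)]
          nlinarith
  calc (1 + |s|) ^ (-1 - δ) * Lg s ^ m
      ≤ (1 + |s|) ^ (-1 - δ) * ((1 + 1 / ε) ^ m * (1 + |s|) ^ (δ / 2)) :=
        mul_le_mul_of_nonneg_left h4 (by positivity)
    _ = (1 + 1 / ε) ^ m * ((1 + |s|) ^ (-1 - δ) * (1 + |s|) ^ (δ / 2)) := by ring
    _ = _ := by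
        rw [← Real.rpow_add hy0]
        congr 2
        ring

theorem wlog_fin (m : ℕ) {δ : ℝ} (hδ : 0 < δ) :
    ∫⁻ s, w δ s * ENNReal.ofReal (Lg s ^ m) ≠ ⊤ := by
  obtain ⟨C, hC, h⟩ := log_bound m hδ
  have h1 : ∫⁻ s, w δ s * ENNReal.ofReal (Lg s ^ m) ≤ ∫⁻ s, ENNReal.ofReal C * w (δ / 2) s := by
    refine lintegral_mono fun s => ?_
    unfold w
    rw [← ENNReal.ofReal_mul (by positivity), ← ENNReal.ofReal_mul hC.le]
    exact ENNReal.ofReal_le_ofReal (h s)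
  refine ne_top_of_le_ne_top ?_ h1
  rw [lintegral_const_mul' _ _ ENNReal.ofReal_ne_top]
  exact ENNReal.mul_ne_top ENNReal.ofReal_ne_top (w_fin (by positivity))

/-- Jensen -/
theorem jensen {p : ℝ} (hp : 1 < p) (u F : ℝ → ℝ≥0∞) (hu : Measurable u) (hF : Measurable F) :
    (∫⁻ s, u s * F s) ^ p ≤ (∫⁻ s, u s) ^ (p - 1) * ∫⁻ s, u s * F s ^ p := by
  have hpq := Real.HolderConjugate.conjExponent hp
  have h := ENNReal.lintegral_mul_le_Lp_mul_Lq (volume.withDensity u) hpq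
    (hF.aemeasurable (μ := volume.withDensity u))
    ((measurable_const : Measurable fun _ : ℝ => (1 : ℝ≥0∞)).aemeasurable
      (μ := volume.withDensity u))
  simp only [Pi.mul_apply, mul_one, ENNReal.one_rpow, lintegral_const, one_mul] at h
  rw [lintegral_withDensity_eq_lintegral_mul _ hu hF,
    lintegral_withDensity_eq_lintegral_mul _ hu (hF.pow_const p), withDensity_apply _ MeasurableSet.univ,
    Measure.restrict_univ] at h
  simp only [Pi.mul_apply] at h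
  have hp0 : 0 < p := by linarith
  have h2 := ENNReal.rpow_le_rpow h hp0.le
  rw [ENNReal.mul_rpow_of_nonneg _ _ hp0.le, ← ENNReal.rpow_mul, ← ENNReal.rpow_mul,
    one_div_mul_cancel hp0.ne', ENNReal.rpow_one] at h2
  have h3 : 1 / p.conjExponent * p = p - 1 := by
    unfold Real.conjExponent
    have : p - 1 ≠ 0 := by linarith
    field_simp
  rw [h3] at h2
  rw [mul_comm]
  exact h2

theorem al_re {κ a s : ℝ} (hκ : 0 < κ) (ha : 1 ≤ a) : 0 < (al κ a s).re :=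
  mul_pos hκ (by linarith)

theorem be_re {κ a s : ℝ} (hκ : 0 < κ) (ha : 1 ≤ a) : 0 < (be κ a s).re :=
  mul_pos hκ (by have := abs_nonneg s; linarith)

theorem k1_re {κ : ℝ} (hκ : 0 < κ) : 0 < (((κ / 2 : ℝ) : ℂ)).re := by rw [ofReal_re]; linarith

theorem k2_re {κ : ℝ} (s : ℝ) (hκ : 0 < κ) : 0 < (((κ / 2 + κ * (1 + |s|) : ℝ) : ℂ)).re := by
  rw [ofReal_re]; positivity

theorem D_props (hB : S_BASN) {n : ℕ} {κ : ℝ} (hκ : 0 < κ) (s : ℝ) (f : (Fin n → ℝ) → ℂ)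
    (hf : Integrable f) : Continuous (D κ s f) ∧ Integrable (D κ s f) := by
  have h1 := (hB n (fun _ => ((κ / 2 : ℝ) : ℂ)) (fun _ => k1_re hκ)).2.2.2.2 f hf
  have h2 := (hB n (fun _ => ((κ / 2 + κ * (1 + |s|) : ℝ) : ℂ)) (fun _ => k2_re s hκ)).2.2.2.2 f hf
  exact ⟨h1.2.1.sub h2.2.1, h1.2.2.1.sub h2.2.2.1⟩

theorem comp_law (hB : S_BASN) {n : ℕ} {κ : ℝ} (hκ : 0 < κ) (s : ℝ) (a : Fin n → ℝ)
    (ha : ∀ i, 1 ≤ a i) (f : (Fin n → ℝ) → ℂ) (hf : Integrable f) (x : Fin n → ℝ) :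
    T (fun i => ga κ (a i) s) f x =
      T (fun i => al κ (a i) s) (D κ s f) x + T (fun i => be κ (a i) s) f x := by
  have h1 := (hB n (fun _ => ((κ / 2 : ℝ) : ℂ)) (fun _ => k1_re hκ)).2.2.2.2 f hf
  have h2 := (hB n (fun _ => ((κ / 2 + κ * (1 + |s|) : ℝ) : ℂ)) (fun _ => k2_re s hκ)).2.2.2.2 f hf
  have hal : ∀ i, 0 < (al κ (a i) s).re := fun i => al_re hκ (ha i)
  have e1 := h1.2.2.2.2 (fun i => al κ (a i) s) hal x
  have e2 := h2.2.2.2.2 (fun i => al κ (a i) s) hal x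
  have g1 := ((hB n (fun i => al κ (a i) s) hal).2.2.2.2 _ h1.2.2.1).1 x
  have g2 := ((hB n (fun i => al κ (a i) s) hal).2.2.2.2 _ h2.2.2.1).1 x
  have e3 : T (fun i => al κ (a i) s) (D κ s f) x =
      T (fun i => al κ (a i) s) (T (fun _ => ((κ / 2 : ℝ) : ℂ)) f) x -
      T (fun i => al κ (a i) s) (T (fun _ => ((κ / 2 + κ * (1 + |s|) : ℝ) : ℂ)) f) x := by
    conv_lhs => unfold T
    conv_rhs => unfold T
    have := integral_sub g1 g2
    simp only [T] at this ⊢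
    rw [← this]
    refine integral_congr_ae (Eventually.of_forall fun y => ?_)
    simp only [D, T]
    ring
  have e4 : (fun i => al κ (a i) s + ((κ / 2 : ℝ) : ℂ)) = fun i => ga κ (a i) s := by
    funext i
    apply Complex.ext
    · simp only [al, ga, add_re, ofReal_re]; ring
    · simp only [al, ga, add_im, ofReal_im]; ring
  have e5 : (fun i => al κ (a i) s + ((κ / 2 + κ * (1 + |s|) : ℝ) : ℂ)) = fun i => be κ (a i) s := by
    funext i
    apply Complex.ext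
    · simp only [al, be, add_re, ofReal_re]; ring
    · simp only [al, be, add_im, ofReal_im]; ring
  rw [e3, e1, e2, e4, e5]
  ring

theorem al_eq (κ a s : ℝ) : al κ a s =
    ((κ * (a - 1 / 2) : ℝ) : ℂ) + ((κ * (2 * Real.pi * a * s) : ℝ) : ℂ) * I := by
  apply Complex.ext <;> simp [al]

theorem D_meas (hM : S_MEAS) {n : ℕ} (κ : ℝ) (f : (Fin n → ℝ) → ℂ) (hf : Measurable f) :
    Measurable (fun q : ℝ × (Fin n → ℝ) => D κ q.1 f q.2) := by
  have hu : Measurable (Function.uncurry (fun _ : ℝ => f)) := by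
    exact hf.comp measurable_snd
  have h1 := hM n ℝ (fun _ _ => ((κ / 2 : ℝ) : ℂ)) (fun _ => f) (by fun_prop) hu
  have h2 := hM n ℝ (fun s _ => ((κ / 2 + κ * (1 + |s|) : ℝ) : ℂ)) (fun _ => f) (by
    refine measurable_pi_iff.2 fun _ => ?_
    refine Complex.measurable_ofReal.comp ?_
    have : Measurable fun s : ℝ => |s| := measurable_norm
    fun_prop) hu
  exact h1.sub h2

seal T D S MM

theorem F_meas (hM : S_MEAS) {n : ℕ} (κ : ℝ) (f : (Fin n → ℝ) → ℂ) (hf : Measurable f) :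
    Measurable (fun q : ((Fin n → ℝ) × ℝ) × (Fin n → ℝ) =>
      T (fun i => al κ (q.1.1 i) q.1.2) (D κ q.1.2 f) q.2) := by
  have h1 : Measurable (fun (q : (Fin n → ℝ) × ℝ) (i : Fin n) => al κ (q.1 i) q.2) := by
    refine measurable_pi_iff.2 fun i => ?_
    simp only [al_eq]
    fun_prop
  have h2 : Measurable (Function.uncurry (fun (q : (Fin n → ℝ) × ℝ) => D κ q.2 f)) := by
    have h3 := (D_meas hM κ f hf).comp ((measurable_snd.comp measurable_fst).prodMk measurable_snd :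
      Measurable (fun q : ((Fin n → ℝ) × ℝ) × (Fin n → ℝ) => ((q.1.2, q.2) : ℝ × (Fin n → ℝ))))
    exact h3
  exact hM n ((Fin n → ℝ) × ℝ) (fun q i => al κ (q.1 i) q.2) (fun q => D κ q.2 f) h1 h2

/-- the sum over the dyadic scales -/
noncomputable def Sg {n : ℕ} (p : ℝ) (f : (Fin n → ℝ) → ℂ) (a x : Fin n → ℝ) (s : ℝ) : ℝ≥0∞ :=
  ∑' j : ℤ, ‖T (fun i => al ((4 : ℝ) ^ (-j)) (a i) s) (D ((4 : ℝ) ^ (-j)) s f) x‖ₑ ^ p

theorem Sg_meas (hM : S_MEAS) {n : ℕ} (p : ℝ) (f : (Fin n → ℝ) → ℂ) (hf : Measurable f) :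
    Measurable (fun q : ((Fin n → ℝ) × ℝ) × (Fin n → ℝ) => Sg p f q.1.1 q.2 q.1.2) := by
  unfold Sg
  refine Measurable.ennreal_tsum fun j => ?_
  exact (F_meas hM ((4 : ℝ) ^ (-j)) f hf).enorm.pow_const p

set_option maxHeartbeats 2000000 in
theorem mainm (hB : S_BASN) (hM : S_MEAS) (hC : S_CORE) (hD : S_DJ) (hH : S_HL) (hL : S_LOW)
    (hR : S_REP) (n : ℕ) (p δ : ℝ) (hp2 : 2 ≤ p) (hp4 : p ≤ 4) (hδ : 0 < δ) :
    ∃ K : ℝ≥0∞, K ≠ ⊤ ∧ ∀ f : (Fin n → ℝ) → ℂ, Measurable f → Integrable f →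
      ∫⁻ a in Icc (fun _ : Fin n => (1 : ℝ)) (fun _ => 2),
        ∫⁻ x, (⨆ R : {R : ℝ // 0 < R}, ‖S δ a R f x‖ₑ) ^ p ≤ K * ∫⁻ x, ‖f x‖ₑ ^ p := by
  obtain ⟨Cr, hCr, hrep⟩ := hR n δ hδ
  obtain ⟨Cl, hCl, hlow⟩ := hL n
  obtain ⟨Cc, hCc, hcore⟩ := hC n p hp2 hp4
  obtain ⟨Cd, hCd, hdj⟩ := hD n p hp2 hp4
  obtain ⟨Ch, hCh, hhl⟩ := hH n p (by linarith)
  have hp0 : 0 < p := by linarith
  have hp1 : 1 ≤ p := by linarith
  have hp1' : 0 ≤ p - 1 := by linarith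
  set Q := Icc (fun _ : Fin n => (1 : ℝ)) (fun _ => 2) with hQ
  have hQm : MeasurableSet Q := measurableSet_Icc
  have hQf : volume Q ≠ ⊤ := isCompact_Icc.measure_lt_top.ne
  set W : ℝ≥0∞ := ∫⁻ s, w δ s with hW
  have hWf : W ≠ ⊤ := w_fin hδ
  set K1 : ℝ≥0∞ := ENNReal.ofReal Cr ^ p * (2 : ℝ≥0∞) ^ (p - 1) with hK1
  have hK1f : K1 ≠ ⊤ := ENNReal.mul_ne_top (ENNReal.rpow_ne_top_of_nonneg hp0.le ENNReal.ofReal_ne_top)
    (ENNReal.rpow_ne_top_of_nonneg hp1' (by norm_num))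
  have hWp : W ^ (p - 1) ≠ ⊤ := ENNReal.rpow_ne_top_of_nonneg hp1' hWf
  set K2 : ℝ≥0∞ := (W * ENNReal.ofReal Cl) ^ p with hK2
  have hK2f : K2 ≠ ⊤ := ENNReal.rpow_ne_top_of_nonneg hp0.le
    (ENNReal.mul_ne_top hWf ENNReal.ofReal_ne_top)
  set V : ℝ≥0∞ := ∫⁻ s, w δ s * ENNReal.ofReal (Lg s ^ (n + 1)) with hV
  have hVf : V ≠ ⊤ := wlog_fin (n + 1) hδ
  refine ⟨K1 * (W ^ (p - 1) * (V * ENNReal.ofReal (Cc * Cd)) + volume Q * (K2 * ENNReal.ofReal Ch)),
    ENNReal.mul_ne_top hK1f (ENNReal.add_ne_top.2 ⟨ENNReal.mul_ne_top hWp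
      (ENNReal.mul_ne_top hVf ENNReal.ofReal_ne_top), ENNReal.mul_ne_top hQf
      (ENNReal.mul_ne_top hK2f ENNReal.ofReal_ne_top)⟩), ?_⟩
  intro f hf hfi
  set M : (Fin n → ℝ) → ℝ≥0∞ := MM (fun y => ‖f y‖ₑ) with hMdef
  -- claim 1
  have claim1 : ∀ a ∈ Q, ∀ x, (⨆ R : {R : ℝ // 0 < R}, ‖S δ a R f x‖ₑ) ^ p ≤
      K1 * (W ^ (p - 1) * (∫⁻ s, w δ s * Sg p f a x s) + K2 * M x ^ p) := by
    intro a ha x
    have ha1 : ∀ i, 1 ≤ a i := fun i => ha.1 i
    have hsup : (⨆ R : {R : ℝ // 0 < R}, ‖S δ a R f x‖ₑ) ^ p =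
        ⨆ R : {R : ℝ // 0 < R}, ‖S δ a R f x‖ₑ ^ p :=
      (ENNReal.orderIsoRpow p hp0).map_iSup _
    rw [hsup]
    refine iSup_le fun R => ?_
    obtain ⟨R, hR0⟩ := R
    obtain ⟨j, hj1, hj2⟩ := exists_mem_Ico_zpow hR0 (one_lt_two : (1 : ℝ) < 2)
    have h1 := hrep f hf hfi a ha j R hj1 hj2.le x
    set κ : ℝ := (4 : ℝ) ^ (-j) with hκ
    have hκ0 : 0 < κ := by positivity
    set F : ℝ → ℝ≥0∞ := fun s => ‖T (fun i => al κ (a i) s) (D κ s f) x‖ₑ with hF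
    have hFm : Measurable F := by
      have h := (F_meas hM κ f hf).comp
        ((measurable_const.prodMk measurable_id).prodMk measurable_const :
          Measurable (fun s : ℝ => (((a, s), x) : ((Fin n → ℝ) × ℝ) × (Fin n → ℝ))))
      exact h.enorm
    have h2 : ∫⁻ s : ℝ, ENNReal.ofReal ((1 + |s|) ^ (-1 - δ)) *
        ‖T (fun i => ga κ (a i) s) f x‖ₑ ≤ (∫⁻ s, w δ s * F s) + W * (ENNReal.ofReal Cl * M x) := by
      have h3 : ∫⁻ s : ℝ, ENNReal.ofReal ((1 + |s|) ^ (-1 - δ)) *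
          ‖T (fun i => ga κ (a i) s) f x‖ₑ ≤ ∫⁻ s, (w δ s * F s + w δ s * (ENNReal.ofReal Cl * M x)) := by
        refine lintegral_mono fun s => ?_
        rw [← mul_add]
        refine mul_le_mul' le_rfl ?_
        rw [comp_law hB hκ0 s a ha1 f hfi x]
        exact (enorm_add_le _ _).trans (add_le_add le_rfl (hlow κ hκ0 s a ha f hf x))
      refine h3.trans (le_of_eq ?_)
      have hm : Measurable fun s => w δ s * F s := (w_meas δ).mul hFm
      rw [lintegral_add_left hm, lintegral_mul_const _ (w_meas δ)]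
    have h4 := ENNReal.rpow_le_rpow (h1.trans (mul_le_mul' le_rfl h2)) hp0.le
    refine h4.trans ?_
    rw [ENNReal.mul_rpow_of_nonneg _ _ hp0.le, hK1, mul_assoc]
    refine mul_le_mul' le_rfl ?_
    refine (ENNReal.rpow_add_le_mul_rpow_add_rpow _ _ hp1).trans ?_
    refine mul_le_mul' le_rfl (add_le_add ?_ ?_)
    · refine (jensen (by linarith) (w δ) F (w_meas δ) hFm).trans ?_
      refine mul_le_mul' le_rfl (lintegral_mono fun s => mul_le_mul' le_rfl ?_)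
      unfold Sg
      exact ENNReal.le_tsum (f := fun j : ℤ =>
        ‖T (fun i => al ((4 : ℝ) ^ (-j)) (a i) s) (D ((4 : ℝ) ^ (-j)) s f) x‖ₑ ^ p) j
    · rw [hK2, ← mul_assoc, ENNReal.mul_rpow_of_nonneg _ _ hp0.le]
  -- measurability
  have mS := Sg_meas hM p f hf
  have mP1 : ∀ a, Measurable (fun x => ∫⁻ s, w δ s * Sg p f a x s) := by
    intro a
    have h : Measurable (fun q : (Fin n → ℝ) × ℝ => w δ q.2 * Sg p f a q.1 q.2) := by
      refine ((w_meas δ).comp measurable_snd).mul ?_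
      exact mS.comp ((measurable_const.prodMk measurable_snd).prodMk measurable_fst :
        Measurable (fun q : (Fin n → ℝ) × ℝ => (((a, q.2), q.1) : ((Fin n → ℝ) × ℝ) × (Fin n → ℝ))))
    exact h.lintegral_prod_right'
  have mP2 : Measurable (fun a : Fin n → ℝ => ∫⁻ x, ∫⁻ s, w δ s * Sg p f a x s) := by
    have h : Measurable (fun q : ((Fin n → ℝ) × (Fin n → ℝ)) × ℝ =>
        w δ q.2 * Sg p f q.1.1 q.1.2 q.2) := by
      refine ((w_meas δ).comp measurable_snd).mul ?_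
      exact mS.comp (((measurable_fst.comp measurable_fst).prodMk measurable_snd).prodMk
        (measurable_snd.comp measurable_fst) :
        Measurable (fun q : ((Fin n → ℝ) × (Fin n → ℝ)) × ℝ =>
          (((q.1.1, q.2), q.1.2) : ((Fin n → ℝ) × ℝ) × (Fin n → ℝ))))
    exact (h.lintegral_prod_right').lintegral_prod_right'
  -- the main part
  have claim3 : ∫⁻ a in Q, ∫⁻ x, ∫⁻ s, w δ s * Sg p f a x s =
      ∫⁻ s, w δ s * ∑' j : ℤ, ∫⁻ a in Q, ∫⁻ x,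
        ‖T (fun i => al ((4 : ℝ) ^ (-j)) (a i) s) (D ((4 : ℝ) ^ (-j)) s f) x‖ₑ ^ p := by
    have e1 : ∀ a, ∫⁻ x, ∫⁻ s, w δ s * Sg p f a x s = ∫⁻ s, ∫⁻ x, w δ s * Sg p f a x s := by
      intro a
      refine lintegral_lintegral_swap ?_
      refine Measurable.aemeasurable ?_
      refine ((w_meas δ).comp measurable_snd).mul ?_
      exact mS.comp ((measurable_const.prodMk measurable_snd).prodMk measurable_fst :
        Measurable (fun q : (Fin n → ℝ) × ℝ => (((a, q.2), q.1) : ((Fin n → ℝ) × ℝ) × (Fin n → ℝ))))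
    simp only [e1]
    have e2 : ∫⁻ a in Q, ∫⁻ s, ∫⁻ x, w δ s * Sg p f a x s =
        ∫⁻ s, ∫⁻ a in Q, ∫⁻ x, w δ s * Sg p f a x s := by
      refine lintegral_lintegral_swap ?_
      refine Measurable.aemeasurable ?_
      have h : Measurable (fun q : ((Fin n → ℝ) × ℝ) × (Fin n → ℝ) =>
          w δ q.1.2 * Sg p f q.1.1 q.2 q.1.2) :=
        ((w_meas δ).comp (measurable_snd.comp measurable_fst)).mul mS
      exact h.lintegral_prod_right'
    rw [e2]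
    refine lintegral_congr fun s => ?_
    have hws : w δ s ≠ ⊤ := ENNReal.ofReal_ne_top
    have e3 : ∀ a, ∫⁻ x, w δ s * Sg p f a x s = w δ s * ∑' j : ℤ, ∫⁻ x,
        ‖T (fun i => al ((4 : ℝ) ^ (-j)) (a i) s) (D ((4 : ℝ) ^ (-j)) s f) x‖ₑ ^ p := by
      intro a
      rw [lintegral_const_mul' _ _ hws]
      congr 1
      unfold Sg
      rw [lintegral_tsum]
      intro j
      have h := (F_meas hM ((4 : ℝ) ^ (-j)) f hf).comp
        (measurable_const.prodMk measurable_id :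
          Measurable (fun x : Fin n → ℝ => (((a, s), x) : ((Fin n → ℝ) × ℝ) × (Fin n → ℝ))))
      exact (h.enorm.pow_const p).aemeasurable
    simp only [e3]
    rw [lintegral_const_mul' _ _ hws]
    congr 1
    rw [lintegral_tsum]
    intro j
    refine Measurable.aemeasurable ?_
    have h := (F_meas hM ((4 : ℝ) ^ (-j)) f hf).comp
      (((measurable_fst.prodMk measurable_const).prodMk measurable_snd) :
        Measurable (fun q : (Fin n → ℝ) × (Fin n → ℝ) =>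
          (((q.1, s), q.2) : ((Fin n → ℝ) × ℝ) × (Fin n → ℝ))))
    exact (h.enorm.pow_const p).lintegral_prod_right'
  have claim4 : ∫⁻ a in Q, ∫⁻ x, ∫⁻ s, w δ s * Sg p f a x s ≤
      V * ENNReal.ofReal (Cc * Cd) * ∫⁻ x, ‖f x‖ₑ ^ p := by
    rw [claim3]
    have e1 : ∀ s, w δ s * ∑' j : ℤ, ∫⁻ a in Q, ∫⁻ x,
        ‖T (fun i => al ((4 : ℝ) ^ (-j)) (a i) s) (D ((4 : ℝ) ^ (-j)) s f) x‖ₑ ^ p ≤
        (w δ s * ENNReal.ofReal (Lg s ^ (n + 1))) * (ENNReal.ofReal (Cc * Cd) * ∫⁻ x, ‖f x‖ₑ ^ p) := by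
      intro s
      rw [mul_assoc]
      refine mul_le_mul' le_rfl ?_
      have hLs : 0 ≤ Lg s := zero_le_one.trans (Lg_ge s)
      calc ∑' j : ℤ, ∫⁻ a in Q, ∫⁻ x,
            ‖T (fun i => al ((4 : ℝ) ^ (-j)) (a i) s) (D ((4 : ℝ) ^ (-j)) s f) x‖ₑ ^ p
          ≤ ∑' j : ℤ, ENNReal.ofReal (Cc * Lg s ^ n) * ∫⁻ x, ‖D ((4 : ℝ) ^ (-j)) s f x‖ₑ ^ p := by
            refine ENNReal.tsum_le_tsum fun j => ?_
            have hκ0 : (0 : ℝ) < (4 : ℝ) ^ (-j) := by positivity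
            obtain ⟨d1, d2⟩ := D_props hB hκ0 s f hfi
            exact hcore _ hκ0 s _ d1.measurable d2
        _ = ENNReal.ofReal (Cc * Lg s ^ n) * ∑' j : ℤ, ∫⁻ x, ‖D ((4 : ℝ) ^ (-j)) s f x‖ₑ ^ p :=
            ENNReal.tsum_mul_left
        _ ≤ ENNReal.ofReal (Cc * Lg s ^ n) * (ENNReal.ofReal (Cd * Lg s) * ∫⁻ x, ‖f x‖ₑ ^ p) :=
            mul_le_mul' le_rfl (hdj s f hf hfi)
        _ = _ := by
            rw [← mul_assoc, ← mul_assoc, ← ENNReal.ofReal_mul (by positivity),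
              ← ENNReal.ofReal_mul (by positivity)]
            congr 2
            ring
    refine (lintegral_mono e1).trans (le_of_eq ?_)
    rw [lintegral_mul_const, mul_assoc]
    exact (w_meas δ).mul (ENNReal.measurable_ofReal.comp (Lg_meas.pow_const _))
  calc ∫⁻ a in Q, ∫⁻ x, (⨆ R : {R : ℝ // 0 < R}, ‖S δ a R f x‖ₑ) ^ p
      ≤ ∫⁻ a in Q, ∫⁻ x, K1 * (W ^ (p - 1) * (∫⁻ s, w δ s * Sg p f a x s) + K2 * M x ^ p) :=
        setLIntegral_mono' hQm fun a ha => lintegral_mono fun x => claim1 a ha x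
    _ = ∫⁻ a in Q, K1 * (W ^ (p - 1) * (∫⁻ x, ∫⁻ s, w δ s * Sg p f a x s) +
          K2 * ∫⁻ x, M x ^ p) := by
        refine lintegral_congr fun a => ?_
        rw [lintegral_const_mul' _ _ hK1f, lintegral_add_left ((mP1 a).const_mul _),
          lintegral_const_mul' _ _ hWp, lintegral_const_mul' _ _ hK2f]
    _ = K1 * (W ^ (p - 1) * (∫⁻ a in Q, ∫⁻ x, ∫⁻ s, w δ s * Sg p f a x s) +
          (K2 * ∫⁻ x, M x ^ p) * volume Q) := by
        rw [lintegral_const_mul' _ _ hK1f, lintegral_add_left (mP2.const_mul _),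
          lintegral_const_mul' _ _ hWp, setLIntegral_const]
    _ ≤ K1 * (W ^ (p - 1) * (V * ENNReal.ofReal (Cc * Cd) * ∫⁻ x, ‖f x‖ₑ ^ p) +
          (K2 * (ENNReal.ofReal Ch * ∫⁻ x, ‖f x‖ₑ ^ p)) * volume Q) := by
        refine mul_le_mul' le_rfl (add_le_add (mul_le_mul' le_rfl claim4)
          (mul_le_mul' (mul_le_mul' le_rfl ?_) le_rfl))
        exact hhl (fun y => ‖f y‖ₑ) hf.enorm
    _ = _ := by ring

theorem main : S_BASN → S_MEAS → S_CORE → S_DJ → S_HL → S_LOW → S_REP → S_MAIN := by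
  intro hB hM hC hD hH hL hR n p δ hp2 hp4 hδ
  obtain ⟨K, hK, h⟩ := mainm hB hM hC hD hH hL hR n p δ hp2 hp4 hδ
  refine ⟨K.toReal + 1, by positivity, ?_⟩
  intro f hfi
  set g := hfi.1.mk f with hg
  have hgm : StronglyMeasurable g := hfi.1.stronglyMeasurable_mk
  have hfg : f =ᵐ[volume] g := hfi.1.ae_eq_mk
  have hgi : Integrable g := hfi.congr hfg
  have e1 : ∀ a R x, S δ a R f x = S δ a R g x := by
    intro a R x
    unfold S
    refine integral_congr_ae (Eventually.of_forall fun ξ => ?_)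
    simp only
    congr 2
    refine integral_congr_ae ?_
    filter_upwards [hfg] with y hy
    rw [hy]
  have e2 : ∫⁻ x, ‖f x‖ₑ ^ p = ∫⁻ x, ‖g x‖ₑ ^ p := by
    refine lintegral_congr_ae ?_
    filter_upwards [hfg] with y hy
    rw [hy]
  simp only [e1]
  rw [e2]
  refine (h g hgm.measurable hgi).trans (mul_le_mul' ?_ le_rfl)
  rw [← ENNReal.ofReal_toReal hK]
  exact ENNReal.ofReal_le_ofReal (by rw [ENNReal.toReal_ofReal ENNReal.toReal_nonneg]; linarith)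

end Pool.Agent.W337.BE.Mn
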