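import Pool.Agent.W203.BE.Stms
import Pool.Agent.H581R3.GPR.Rot

set_option autoImplicit false
set_option linter.all false

/-! Project BE (helper203): subordination. -/

open MeasureTheory Set Complex Filter
open scoped ENNReal FourierTransform

namespace Pool.Agent.W337.BE

open Pool.Agent.W203.BE

/-- the function whose Fourier transform is `q1` -/
noncomputable def phi (δ : ℝ) (t : ℝ) : ℂ := (((max t 0) ^ δ * Real.exp (-t) : ℝ) : ℂ)

/-- `Γ(δ+1) (1 + 2 π i s)^(-1-δ)` -/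
noncomputable def q1 (δ s : ℝ) : ℂ :=
  (1 / (1 + 2 * (Real.pi : ℂ) * s * I)) ^ ((δ + 1 : ℝ) : ℂ) * Complex.Gamma ((δ + 1 : ℝ) : ℂ)

theorem base_re (s : ℝ) : (1 + 2 * (Real.pi : ℂ) * s * I).re = 1 := by
  simp [mul_assoc]

theorem phi_cont {δ : ℝ} (hδ : 0 < δ) : Continuous (phi δ) := by
  unfold phi
  have h := Real.continuous_rpow_const hδ.le
  exact Complex.continuous_ofReal.comp
    ((h.comp (continuous_id.max continuous_const)).mul (Real.continuous_exp.comp continuous_neg))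

theorem phi_eq {δ : ℝ} (hδ : 0 < δ) : phi δ = indicator (Ioi 0)
    (fun t : ℝ => ((Real.exp (-t) * t ^ ((δ + 1) - 1) : ℝ) : ℂ)) := by
  funext t
  unfold phi
  by_cases ht : 0 < t
  · rw [indicator_of_mem (show t ∈ Ioi (0 : ℝ) from ht), max_eq_left ht.le, add_sub_cancel_right,
      mul_comm]
  · rw [indicator_of_notMem (show t ∉ Ioi (0 : ℝ) from ht), max_eq_right (not_lt.1 ht),
      Real.zero_rpow hδ.ne', zero_mul, ofReal_zero]

theorem phi_int {δ : ℝ} (hδ : 0 < δ) : Integrable (phi δ) := by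
  rw [phi_eq hδ, integrable_indicator_iff measurableSet_Ioi]
  exact (Real.GammaIntegral_convergent (s := δ + 1) (by linarith)).ofReal

theorem fourier_phi {δ : ℝ} (hδ : 0 < δ) : 𝓕 (phi δ) = q1 δ := by
  funext s
  rw [Real.fourier_real_eq_integral_exp_smul]
  unfold q1
  rw [← Pool.Agent.H581R3.GPR.Rot.rot_formula (a := ((δ + 1 : ℝ) : ℂ))
    (r := 1 + 2 * (Real.pi : ℂ) * s * I) (by rw [ofReal_re]; linarith)
    (by rw [base_re]; norm_num)]
  rw [← integral_indicator measurableSet_Ioi]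
  refine integral_congr_ae (Eventually.of_forall fun t => ?_)
  simp only [smul_eq_mul]
  rw [phi_eq hδ]
  by_cases ht : 0 < t
  · rw [indicator_of_mem (show t ∈ Ioi (0 : ℝ) from ht), indicator_of_mem (show t ∈ Ioi (0 : ℝ) from ht)]
    have h1 : ((δ + 1 : ℝ) : ℂ) - 1 = ((δ + 1 - 1 : ℝ) : ℂ) := by push_cast; ring
    have h2 : ((Real.exp (-t) * t ^ (δ + 1 - 1) : ℝ) : ℂ) =
        cexp (-(t : ℂ)) * ((t ^ (δ + 1 - 1) : ℝ) : ℂ) := by
      rw [ofReal_mul, ofReal_exp, ofReal_neg]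
    rw [h1, ← Complex.ofReal_cpow ht.le, h2, ← mul_assoc, ← Complex.exp_add, mul_comm]
    congr 2
    push_cast
    ring
  · rw [indicator_of_notMem (show t ∉ Ioi (0 : ℝ) from ht),
      indicator_of_notMem (show t ∉ Ioi (0 : ℝ) from ht), mul_zero]

theorem norm_base (s : ℝ) : (1 + |s|) / 2 ≤ ‖1 + 2 * (Real.pi : ℂ) * s * I‖ := by
  have h1 : (1 : ℝ) ≤ ‖1 + 2 * (Real.pi : ℂ) * s * I‖ := by
    have := Complex.abs_re_le_norm (1 + 2 * (Real.pi : ℂ) * s * I)
    rw [base_re, abs_one] at this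
    exact this
  have h2 : |s| ≤ ‖1 + 2 * (Real.pi : ℂ) * s * I‖ := by
    have := Complex.abs_im_le_norm (1 + 2 * (Real.pi : ℂ) * s * I)
    have h3 : (1 + 2 * (Real.pi : ℂ) * s * I).im = 2 * Real.pi * s := by simp [mul_assoc]
    rw [h3, abs_mul, abs_of_pos (by positivity : 0 < 2 * Real.pi)] at this
    have hpi := Real.pi_gt_three
    nlinarith [abs_nonneg s]
  linarith

/-- the constant -/
noncomputable def Kc (δ : ℝ) : ℝ := 2 ^ (1 + δ) * ‖Complex.Gamma ((δ + 1 : ℝ) : ℂ)‖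

theorem q1_norm {δ : ℝ} (hδ : 0 < δ) (s : ℝ) : ‖q1 δ s‖ ≤ Kc δ * (1 + |s|) ^ (-1 - δ) := by
  unfold q1 Kc
  rw [norm_mul, Complex.norm_cpow_real, norm_div, norm_one]
  have h1 := norm_base s
  have h0 : 0 < 1 + |s| := by positivity
  have h2 : 1 / ‖1 + 2 * (Real.pi : ℂ) * s * I‖ ≤ 2 * (1 + |s|)⁻¹ := by
    rw [one_div, ← div_eq_mul_inv, ← inv_div]
    exact inv_anti₀ (by positivity) h1
  have h3 : (1 / ‖1 + 2 * (Real.pi : ℂ) * s * I‖) ^ (δ + 1) ≤ 2 ^ (1 + δ) * (1 + |s|) ^ (-1 - δ) := by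
    calc (1 / ‖1 + 2 * (Real.pi : ℂ) * s * I‖) ^ (δ + 1) ≤ (2 * (1 + |s|)⁻¹) ^ (δ + 1) :=
          Real.rpow_le_rpow (by positivity) h2 (by linarith)
      _ = _ := by
          rw [Real.mul_rpow (by norm_num) (by positivity), Real.inv_rpow h0.le, ← Real.rpow_neg h0.le]
          congr 1
          · congr 1; ring
          · congr 1; ring
  calc (1 / ‖1 + 2 * (Real.pi : ℂ) * s * I‖) ^ (δ + 1) * ‖Complex.Gamma ((δ + 1 : ℝ) : ℂ)‖
      ≤ (2 ^ (1 + δ) * (1 + |s|) ^ (-1 - δ)) * ‖Complex.Gamma ((δ + 1 : ℝ) : ℂ)‖ :=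
        mul_le_mul_of_nonneg_right h3 (norm_nonneg _)
    _ = _ := by ring

theorem Kc_nonneg (δ : ℝ) : 0 ≤ Kc δ := by unfold Kc; positivity

theorem q1_cont {δ : ℝ} (hδ : 0 < δ) : Continuous (q1 δ) := by
  unfold q1
  refine Continuous.mul ?_ continuous_const
  have hb : Continuous fun s : ℝ => 1 / (1 + 2 * (Real.pi : ℂ) * s * I) := by
    refine continuous_const.div (by fun_prop) fun s h => ?_
    have := base_re s
    rw [h] at this
    simp at this
  refine hb.cpow continuous_const fun s => ?_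
  left
  rw [one_div, Complex.inv_re, base_re]
  refine div_pos one_pos (Complex.normSq_pos.2 fun h => ?_)
  have := base_re s
  rw [h] at this
  simp at this

theorem w_int {δ : ℝ} (hδ : 0 < δ) : Integrable (fun s : ℝ => (1 + |s|) ^ (-1 - δ)) := by
  have h := integrable_one_add_norm (E := ℝ) (μ := volume) (r := 1 + δ) (by simp; linarith)
  refine h.congr (Eventually.of_forall fun s => ?_)
  simp only [Real.norm_eq_abs]
  congr 1
  ring

theorem q1_int {δ : ℝ} (hδ : 0 < δ) : Integrable (q1 δ) := by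
  refine ((w_int hδ).const_mul (Kc δ)).mono' (q1_cont hδ).aestronglyMeasurable
    (Eventually.of_forall fun s => q1_norm hδ s)

/-- representation of the power -/
theorem pow_rep {δ : ℝ} (hδ : 0 < δ) (u : ℝ) :
    (((max u 0) ^ δ : ℝ) : ℂ) = ∫ s : ℝ, q1 δ s * cexp ((1 + 2 * (Real.pi : ℂ) * s * I) * u) := by
  have h1 := (phi_cont hδ).fourierInv_fourier_eq (phi_int hδ) (by rw [fourier_phi hδ]; exact q1_int hδ)
  have h2 := congrFun h1 u
  rw [fourier_phi hδ, Real.fourierInv_eq'] at h2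
  have h3 : (((max u 0) ^ δ : ℝ) : ℂ) = cexp u * phi δ u := by
    unfold phi
    rw [← ofReal_exp, ← ofReal_mul, mul_comm ((max u 0) ^ δ), ← mul_assoc, ← Real.exp_add,
      add_neg_cancel, Real.exp_zero, one_mul]
  rw [h3, ← h2, ← integral_const_mul]
  refine integral_congr_ae (Eventually.of_forall fun s => ?_)
  simp only [smul_eq_mul]
  rw [← mul_assoc, ← Complex.exp_add, mul_comm]
  congr 2
  simp only [RCLike.inner_apply, conj_trivial]
  push_cast
  ring

/-- the Fourier transform in `n` variables -/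
noncomputable def ft {n : ℕ} (f : (Fin n → ℝ) → ℂ) (ξ : Fin n → ℝ) : ℂ :=
  ∫ y : Fin n → ℝ, cexp (-(2 * (Real.pi : ℂ) * I * ((∑ j, y j * ξ j : ℝ) : ℂ))) * f y

theorem norm_e (t : ℝ) : ‖cexp (2 * (Real.pi : ℂ) * I * (t : ℂ))‖ = 1 := by
  have : 2 * (Real.pi : ℂ) * I * (t : ℂ) = ((2 * Real.pi * t : ℝ) : ℂ) * I := by push_cast; ring
  rw [this, Complex.norm_exp_ofReal_mul_I]

theorem norm_e' (t : ℝ) : ‖cexp (-(2 * (Real.pi : ℂ) * I * (t : ℂ)))‖ = 1 := by
  have : -(2 * (Real.pi : ℂ) * I * (t : ℂ)) = ((-(2 * Real.pi * t) : ℝ) : ℂ) * I := by push_cast; ring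
  rw [this, Complex.norm_exp_ofReal_mul_I]

theorem ft_norm {n : ℕ} (f : (Fin n → ℝ) → ℂ) (ξ : Fin n → ℝ) : ‖ft f ξ‖ ≤ ∫ y, ‖f y‖ := by
  unfold ft
  refine (norm_integral_le_integral_norm _).trans (le_of_eq ?_)
  refine integral_congr_ae (Eventually.of_forall fun y => ?_)
  simp only [norm_mul, norm_e', one_mul]

theorem ft_meas {n : ℕ} (f : (Fin n → ℝ) → ℂ) (hf : Measurable f) : StronglyMeasurable (ft f) := by
  have h : Measurable (fun q : (Fin n → ℝ) × (Fin n → ℝ) =>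
      cexp (-(2 * (Real.pi : ℂ) * I * ((∑ j, q.2 j * q.1 j : ℝ) : ℂ))) * f q.2) := by
    refine Measurable.mul ?_ (hf.comp measurable_snd)
    have : Continuous (fun q : (Fin n → ℝ) × (Fin n → ℝ) =>
      cexp (-(2 * (Real.pi : ℂ) * I * ((∑ j, q.2 j * q.1 j : ℝ) : ℂ)))) := by fun_prop
    exact this.measurable
  exact h.stronglyMeasurable.integral_prod_right

/-- the quadratic form -/
noncomputable def lam {n : ℕ} (a ξ : Fin n → ℝ) : ℝ := ∑ j, a j * ξ j ^ 2

theorem exp_lam_int {n : ℕ} (a : Fin n → ℝ) (κ : ℝ) (hκ : 0 < κ) (ha : ∀ j, 0 < a j) :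
    Integrable (fun ξ : Fin n → ℝ => Real.exp (-(κ * lam a ξ))) := by
  have h : Integrable (fun ξ : Fin n → ℝ => ∏ j, Real.exp (-(κ * a j) * ξ j ^ 2)) := by
    refine Integrable.fintype_prod (f := fun j (t : ℝ) => Real.exp (-(κ * a j) * t ^ 2)) fun j => ?_
    exact integrable_exp_neg_mul_sq (mul_pos hκ (ha j))
  refine h.congr (Eventually.of_forall fun ξ => ?_)
  simp only
  rw [← Real.exp_sum]
  congr 1
  unfold lam
  rw [Finset.mul_sum, ← Finset.sum_neg_distrib]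
  refine Finset.sum_congr rfl fun j _ => ?_
  ring

theorem ga_eq (κ a s : ℝ) : ga κ a s = (1 + 2 * (Real.pi : ℂ) * s * I) * ((κ * a : ℝ) : ℂ) := by
  apply Complex.ext
  · simp [ga]
  · simp [ga]
    ring

theorem rep : S_BASN → S_MEAS → S_REP := by
  intro hB _ n δ hδ
  refine ⟨Real.exp 4 * Kc δ + 1, by have := Kc_nonneg δ; positivity, ?_⟩
  intro f hf hfi a ha j R hR1 hR2 x
  have ha1 : ∀ i, 1 ≤ a i := fun i => ha.1 i
  have ha0 : ∀ i, 0 < a i := fun i => lt_of_lt_of_le one_pos (ha1 i)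
  set κ : ℝ := (4 : ℝ) ^ (-j) with hκ
  have hκ0 : 0 < κ := by positivity
  have hR0 : 0 < R := lt_of_lt_of_le (by positivity) hR1
  have hκR : κ * ((2 : ℝ) ^ j) ^ 2 = 1 := by
    rw [hκ, zpow_neg, ← zpow_natCast, ← zpow_mul, mul_comm j, zpow_mul]
    norm_num
    exact inv_mul_cancel₀ (by positivity)
  have hκR1 : 1 ≤ κ * R ^ 2 := by
    rw [← hκR]
    exact mul_le_mul_of_nonneg_left (pow_le_pow_left₀ (by positivity) hR1 2) hκ0.le
  have hκR4 : κ * R ^ 2 ≤ 4 := by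
    have h1 : R ^ 2 ≤ ((2 : ℝ) ^ (j + 1)) ^ 2 := pow_le_pow_left₀ hR0.le hR2 2
    have h2 : ((2 : ℝ) ^ (j + 1)) ^ 2 = 4 * ((2 : ℝ) ^ j) ^ 2 := by
      rw [zpow_add₀ (by norm_num), zpow_one]; ring
    calc κ * R ^ 2 ≤ κ * (4 * ((2 : ℝ) ^ j) ^ 2) := by
          rw [← h2]; exact mul_le_mul_of_nonneg_left h1 hκ0.le
      _ = 4 * (κ * ((2 : ℝ) ^ j) ^ 2) := by ring
      _ = 4 := by rw [hκR]; ring
  -- the integrand in the two variables
  let G : (Fin n → ℝ) → ℝ → ℂ := fun ξ s =>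
    q1 δ s * cexp ((1 + 2 * (Real.pi : ℂ) * s * I) * ((κ * (R ^ 2 - lam a ξ) : ℝ) : ℂ)) * ft f ξ *
      cexp (2 * (Real.pi : ℂ) * I * ((∑ i, x i * ξ i : ℝ) : ℂ))
  set c : ℂ := (((κ * R ^ 2) ^ (-δ) : ℝ) : ℂ) with hc
  -- step 1
  have h1 : S δ a R f x = c * ∫ ξ : Fin n → ℝ, ∫ s : ℝ, G ξ s := by
    unfold S
    rw [← integral_const_mul]
    refine integral_congr_ae (Eventually.of_forall fun ξ => ?_)
    simp only [G]
    rw [integral_mul_const, integral_mul_const, ← pow_rep hδ]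
    have h2 : (max (1 - (∑ i, a i * ξ i ^ 2) / R ^ 2) 0) ^ δ =
        (κ * R ^ 2) ^ (-δ) * (max (κ * (R ^ 2 - lam a ξ)) 0) ^ δ := by
      have hk : 0 < κ * R ^ 2 := by positivity
      rw [Real.rpow_neg hk.le, ← Real.inv_rpow hk.le, ← Real.mul_rpow (by positivity) (le_max_right _ _)]
      congr 1
      rw [mul_max_of_nonneg _ _ (by positivity : 0 ≤ (κ * R ^ 2)⁻¹), mul_zero]
      congr 1
      unfold lam
      field_simp
    rw [h2, ofReal_mul, hc]
    unfold ft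
    ring
  -- integrability
  have hGi : Integrable (Function.uncurry G) (volume.prod volume) := by
    have hm : AEStronglyMeasurable (Function.uncurry G) (volume.prod volume) := by
      have m1 : StronglyMeasurable (fun q : (Fin n → ℝ) × ℝ => q1 δ q.2) :=
        ((q1_cont hδ).comp continuous_snd).stronglyMeasurable
      have m2 : StronglyMeasurable (fun q : (Fin n → ℝ) × ℝ =>
          cexp ((1 + 2 * (Real.pi : ℂ) * q.2 * I) * ((κ * (R ^ 2 - lam a q.1) : ℝ) : ℂ))) := by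
        refine Continuous.stronglyMeasurable ?_
        unfold lam
        fun_prop
      have m3 : StronglyMeasurable (fun q : (Fin n → ℝ) × ℝ => ft f q.1) :=
        (ft_meas f hf).comp_measurable measurable_fst
      have m4 : StronglyMeasurable (fun q : (Fin n → ℝ) × ℝ =>
          cexp (2 * (Real.pi : ℂ) * I * ((∑ i, x i * q.1 i : ℝ) : ℂ))) := by
        refine Continuous.stronglyMeasurable ?_
        fun_prop
      exact (((m1.mul m2).mul m3).mul m4).aestronglyMeasurable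
    have hd : Integrable (fun q : (Fin n → ℝ) × ℝ =>
        (Real.exp (κ * R ^ 2) * (∫ y, ‖f y‖) * Real.exp (-(κ * lam a q.1))) *
          (Kc δ * (1 + |q.2|) ^ (-1 - δ))) (volume.prod volume) :=
      Integrable.mul_prod ((exp_lam_int a κ hκ0 ha0).const_mul _) ((w_int hδ).const_mul _)
    refine hd.mono' hm (Eventually.of_forall fun q => ?_)
    obtain ⟨ξ, s⟩ := q
    simp only [Function.uncurry, G]
    rw [norm_mul, norm_mul, norm_mul, norm_e, mul_one, Complex.norm_exp]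
    have h3 : ((1 + 2 * (Real.pi : ℂ) * s * I) * ((κ * (R ^ 2 - lam a ξ) : ℝ) : ℂ)).re =
        κ * R ^ 2 + -(κ * lam a ξ) := by
      rw [Complex.re_mul_ofReal, base_re]; ring
    rw [h3, Real.exp_add]
    have h4 := q1_norm hδ s
    have h5 := ft_norm f ξ
    calc ‖q1 δ s‖ * (Real.exp (κ * R ^ 2) * Real.exp (-(κ * lam a ξ))) * ‖ft f ξ‖
        ≤ (Kc δ * (1 + |s|) ^ (-1 - δ)) * (Real.exp (κ * R ^ 2) * Real.exp (-(κ * lam a ξ))) *
          ∫ y, ‖f y‖ := by
          refine mul_le_mul (mul_le_mul_of_nonneg_right h4 (by positivity)) h5 (norm_nonneg _) ?_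
          exact mul_nonneg (mul_nonneg (Kc_nonneg δ) (by positivity)) (by positivity)
      _ = _ := by ring
  -- step 2
  have h2 : ∀ s : ℝ, ∫ ξ : Fin n → ℝ, G ξ s =
      q1 δ s * cexp ((1 + 2 * (Real.pi : ℂ) * s * I) * ((κ * R ^ 2 : ℝ) : ℂ)) *
        T (fun i => ga κ (a i) s) f x := by
    intro s
    have hre : ∀ i, 0 < (ga κ (a i) s).re := fun i => mul_pos hκ0 (ha0 i)
    rw [((hB n (fun i => ga κ (a i) s) hre).2.2.2.2 f hfi).2.2.2.1 x, ← integral_const_mul]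
    refine integral_congr_ae (Eventually.of_forall fun ξ => ?_)
    simp only [G]
    have h3 : cexp ((1 + 2 * (Real.pi : ℂ) * s * I) * ((κ * (R ^ 2 - lam a ξ) : ℝ) : ℂ)) =
        cexp ((1 + 2 * (Real.pi : ℂ) * s * I) * ((κ * R ^ 2 : ℝ) : ℂ)) *
          cexp (-(∑ i, ga κ (a i) s * (ξ i : ℂ) ^ 2)) := by
      rw [← Complex.exp_add]
      congr 1
      have h4 : ∑ i, ga κ (a i) s * (ξ i : ℂ) ^ 2 =
          (1 + 2 * (Real.pi : ℂ) * s * I) * ((κ * lam a ξ : ℝ) : ℂ) := by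
        unfold lam
        push_cast
        rw [Finset.mul_sum, Finset.mul_sum]
        refine Finset.sum_congr rfl fun i _ => ?_
        rw [ga_eq]
        push_cast
        ring
      rw [h4]
      push_cast
      ring
    rw [h3]
    unfold ft
    ring
  have h3 : S δ a R f x = ∫ s : ℝ, c * (q1 δ s *
      cexp ((1 + 2 * (Real.pi : ℂ) * s * I) * ((κ * R ^ 2 : ℝ) : ℂ)) *
        T (fun i => ga κ (a i) s) f x) := by
    rw [h1, integral_integral_swap hGi, ← integral_const_mul]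
    refine integral_congr_ae (Eventually.of_forall fun s => ?_)
    simp only
    rw [h2]
  rw [h3]
  refine (enorm_integral_le_lintegral_enorm _).trans ?_
  rw [← lintegral_const_mul' _ _ ENNReal.ofReal_ne_top]
  refine lintegral_mono fun s => ?_
  rw [enorm_mul, enorm_mul, ← mul_assoc, ← mul_assoc]
  refine mul_le_mul' ?_ le_rfl
  rw [← enorm_mul, ← ofReal_norm_eq_enorm, ← ENNReal.ofReal_mul (by
    have := Kc_nonneg δ; positivity)]
  refine ENNReal.ofReal_le_ofReal ?_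
  rw [norm_mul, norm_mul, hc, Complex.norm_real, Real.norm_of_nonneg (by positivity), Complex.norm_exp,
    Complex.re_mul_ofReal, base_re, one_mul]
  have h4 : (κ * R ^ 2) ^ (-δ) ≤ 1 := Real.rpow_le_one_of_one_le_of_nonpos hκR1 (by linarith)
  have h5 : Real.exp (κ * R ^ 2) ≤ Real.exp 4 := Real.exp_le_exp.2 hκR4
  have h6 := q1_norm hδ s
  have h7 : 0 ≤ (1 + |s|) ^ (-1 - δ) := by positivity
  have h8 := Kc_nonneg δ
  calc (κ * R ^ 2) ^ (-δ) * (‖q1 δ s‖ * Real.exp (κ * R ^ 2))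
      ≤ 1 * ((Kc δ * (1 + |s|) ^ (-1 - δ)) * Real.exp 4) := by
        refine mul_le_mul h4 (mul_le_mul h6 h5 (by positivity) (mul_nonneg h8 h7)) (by positivity)
          zero_le_one
    _ ≤ (Real.exp 4 * Kc δ + 1) * (1 + |s|) ^ (-1 - δ) := by nlinarith

end Pool.Agent.W337.BE
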